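import Mathlib
import Pool.Agent.K1H27.BN.Stm

/-!
# Piece NRM: the norms of the integrated local resolvents
-/

set_option autoImplicit false

namespace Pool.Agent.K1H97.BN

open MeasureTheory Set Metric Filter Topology
open scoped ENNReal NNReal
open Pool.Agent.Y271.RO (ht Bd)
open Pool.Agent.R277.SP (FC Y)
open Pool.Agent.K1H27.BN

/-- the pointwise estimate -/
lemma pw {p : ℝ} (hp1 : 1 < p) (hp2 : p < 2) {J : Finset ℕ} {a b : ℕ → ℝ}
    (hb : ∀ j, 0 ≤ b j) (hs : ∑ j ∈ J, a j ^ 2 ≤ 1) {S : ℝ} (hS : 0 < S) :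
    ∑ j ∈ J, a j * b j ≤ S ^ (1 / p) * (1 + 1 / S * ∑ j ∈ J, b j ^ p) := by
  set T := ∑ j ∈ J, b j ^ p with hT
  have hp0 : 0 < p := by linarith
  have hT0 : 0 ≤ T := Finset.sum_nonneg fun j _ => Real.rpow_nonneg (hb j) p
  have h1 : ∑ j ∈ J, a j * b j ≤ Real.sqrt (∑ j ∈ J, b j ^ 2) := by
    have h2 := Finset.sum_mul_sq_le_sq_mul_sq J a b
    apply Real.le_sqrt_of_sq_le
    refine h2.trans ?_
    have h3 : 0 ≤ ∑ j ∈ J, b j ^ 2 := Finset.sum_nonneg fun j _ => sq_nonneg _
    calc _ ≤ 1 * ∑ j ∈ J, b j ^ 2 := mul_le_mul_of_nonneg_right hs h3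
      _ = _ := one_mul _
  have h2 : Real.sqrt (∑ j ∈ J, b j ^ 2) ≤ T ^ (1 / p) := by
    rw [Real.sqrt_le_left (Real.rpow_nonneg hT0 _)]
    have e1 : (T ^ (1 / p)) ^ 2 = T * (T ^ (1 / p)) ^ (2 - p) := by
      rw [← Real.rpow_natCast, ← Real.rpow_mul hT0, ← Real.rpow_mul hT0]
      have e2 : 1 / p * ((2 : ℕ) : ℝ) = 1 + 1 / p * (2 - p) := by
        push_cast
        field_simp
        ring
      have e3 : (1 : ℝ) + 1 / p * (2 - p) ≠ 0 := by
        have : 0 < 1 / p * (2 - p) := by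
          have : 0 < 2 - p := by linarith
          positivity
        linarith
      rw [e2, Real.rpow_add' hT0 e3, Real.rpow_one]
    rw [e1, hT, Finset.sum_mul]
    refine Finset.sum_le_sum fun j hj => ?_
    have h3 : b j ^ p ≤ T := Finset.single_le_sum (f := fun j => b j ^ p)
      (fun j _ => Real.rpow_nonneg (hb j) p) hj
    have h4 : b j ≤ T ^ (1 / p) := by
      have h5 := Real.rpow_le_rpow (Real.rpow_nonneg (hb j) p) h3 (show 0 ≤ 1 / p by positivity)
      rwa [← Real.rpow_mul (hb j), mul_one_div_cancel hp0.ne', Real.rpow_one] at h5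
    have h5 : b j ^ 2 = b j ^ p * b j ^ (2 - p) := by
      rw [← Real.rpow_add' (hb j) (by linarith : p + (2 - p) ≠ 0), ← Real.rpow_natCast]
      congr 1
      push_cast
      ring
    rw [h5]
    exact mul_le_mul_of_nonneg_left (Real.rpow_le_rpow (hb j) h4 (by linarith))
      (Real.rpow_nonneg (hb j) p)
  have h3 : T ^ (1 / p) ≤ S ^ (1 / p) * (1 + 1 / S * T) := by
    have h4 : T = S * (1 / S * T) := by field_simp
    have h5 : 0 ≤ 1 / S * T := by positivity
    have h6 : T ^ (1 / p) = S ^ (1 / p) * (1 / S * T) ^ (1 / p) := by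
      conv_lhs => rw [h4]
      rw [Real.mul_rpow hS.le h5]
    rw [h6]
    apply mul_le_mul_of_nonneg_left _ (Real.rpow_nonneg hS.le _)
    rcases le_total (1 / S * T) 1 with h7 | h7
    · have := Real.rpow_le_one h5 h7 (show 0 ≤ 1 / p by positivity)
      linarith
    · have h8 : 1 / p ≤ 1 := by
        rw [div_le_one hp0]
        exact hp1.le
      have := Real.rpow_le_rpow_of_exponent_le h7 h8
      rw [Real.rpow_one] at this
      linarith
  exact h1.trans (h2.trans h3)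

theorem t_NRM : S_NRM := by
  intro E _ _ K _ Φ N M hF Ct hC p hp1 hp2 c ρ hρ
  obtain ⟨B, hB⟩ := hC.bd p hp1 hp2 (‖c‖ + ρ)
  refine ⟨(volume (ball c ρ)).toReal + B, by positivity, ?_⟩
  intro G hGm hGs hG1 x J n
  have hp0 : 0 < p := by linarith
  set S := ∑ j ∈ J, ‖x j‖ ^ p with hS
  have hS0 : 0 ≤ S := Finset.sum_nonneg fun j _ => Real.rpow_nonneg (norm_nonneg _) p
  have hGJ : ∀ z, ∑ j ∈ J, ‖G j z‖ ^ 2 ≤ 1 := by
    intro z
    obtain ⟨m, hm⟩ := J.exists_nat_subset_range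
    exact (Finset.sum_le_sum_of_subset_of_nonneg hm fun j _ _ => sq_nonneg _).trans (hG1 z m)
  have hG2 : ∀ j z, ‖G j z‖ ≤ 1 := by
    intro j z
    have h2 : ‖G j z‖ ^ 2 ≤ 1 := (Finset.single_le_sum (f := fun j => ‖G j z‖ ^ 2)
      (fun j _ => sq_nonneg _) (Finset.mem_range.2 (Nat.lt_succ_self j))).trans (hG1 z (j + 1))
    nlinarith [norm_nonneg (G j z)]
  let g : ℕ → ℂ → ℂ := fun j z => (z - c) ^ n * G j z
  have hzc : ∀ z ∈ ball c ρ, ‖z - c‖ ≤ ρ := fun z hz => by
    rw [mem_ball, dist_eq_norm] at hz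
    exact hz.le
  have hg : ∀ j, Bd (g j) c ρ (ρ ^ n) := fun j =>
    { meas := ((measurable_id.sub_const c).pow_const n).mul (hGm j)
      nonneg := by positivity
      bd := fun z => by
        by_cases hz : z ∈ ball c ρ
        · have h1 := hzc z hz
          calc ‖(z - c) ^ n * G j z‖ = ‖z - c‖ ^ n * ‖G j z‖ := by rw [norm_mul, norm_pow]
            _ ≤ ρ ^ n * 1 := by
              gcongr
              exact hG2 j z
            _ = ρ ^ n := mul_one _
        · simp only [g, hGs j z hz, mul_zero, norm_zero]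
          positivity
      supp := fun z hz => by simp only [g, hGs j z hz, mul_zero] }
  set v : E := ∑ j ∈ J, Y Φ (fun z => (z - c) ^ n * G j z) (x j) with hv
  by_cases hv0 : v = 0
  · rw [hv0, norm_zero]
    positivity
  have hSpos : 0 < S := by
    rcases hS0.lt_or_eq with h | h
    · exact h
    · exfalso
      apply hv0
      rw [hv]
      refine Finset.sum_eq_zero fun j hj => ?_
      have h1 := (Finset.sum_eq_zero_iff_of_nonneg
        fun j _ => Real.rpow_nonneg (norm_nonneg (x j)) p).1 h.symm j hj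
      have h2 : ‖x j‖ = 0 := (Real.rpow_eq_zero (norm_nonneg _) hp0.ne').1 h1
      rw [norm_eq_zero.1 h2]
      unfold Y
      exact map_zero _
  obtain ⟨y, hy1, hy2⟩ := exists_dual_vector ℂ v (norm_ne_zero_iff.2 hv0)
  have hint : ∀ j, Integrable (fun z => g j z * Ct y (x j) z) := fun j =>
    (hC.eq y (x j) c ρ (ρ ^ n) (g j) (hg j)).1
  have hyv : y v = ∫ z, ∑ j ∈ J, g j z * Ct y (x j) z := by
    rw [integral_finsetSum _ fun j _ => hint j, hv, map_sum]
    exact Finset.sum_congr rfl fun j _ => (hC.eq y (x j) c ρ (ρ ^ n) (g j) (hg j)).2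
  have h1 : ‖v‖ₑ ≤ ∫⁻ z, ‖∑ j ∈ J, g j z * Ct y (x j) z‖ₑ := by
    have : ‖v‖ₑ = ‖y v‖ₑ := by
      rw [← ofReal_norm, ← ofReal_norm, hy2]
      simp
    rw [this, hyv]
    exact enorm_integral_le_lintegral_enorm _
  have hpt : ∀ z, ‖∑ j ∈ J, g j z * Ct y (x j) z‖ₑ ≤ (ball c ρ).indicator (fun z =>
      ENNReal.ofReal (ρ ^ n * S ^ (1 / p)) *
        (1 + ENNReal.ofReal (1 / S) * ∑ j ∈ J, ‖Ct y (x j) z‖ₑ ^ p)) z := by
    intro z
    by_cases hz : z ∈ ball c ρ
    · rw [indicator_of_mem hz]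
      have h2 : ‖∑ j ∈ J, g j z * Ct y (x j) z‖ ≤
          ρ ^ n * (S ^ (1 / p) * (1 + 1 / S * ∑ j ∈ J, ‖Ct y (x j) z‖ ^ p)) := by
        have h3 : ‖∑ j ∈ J, g j z * Ct y (x j) z‖ ≤
            ρ ^ n * ∑ j ∈ J, ‖G j z‖ * ‖Ct y (x j) z‖ := by
          refine (norm_sum_le _ _).trans ?_
          rw [Finset.mul_sum]
          refine Finset.sum_le_sum fun j _ => ?_
          simp only [g]
          rw [norm_mul, norm_mul, norm_pow, mul_assoc]
          have := hzc z hz
          gcongr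
        refine h3.trans (mul_le_mul_of_nonneg_left ?_ (by positivity))
        exact pw hp1 hp2 (fun j => norm_nonneg _) (hGJ z) hSpos
      rw [← ofReal_norm]
      refine (ENNReal.ofReal_le_ofReal h2).trans (le_of_eq ?_)
      have e1 : ENNReal.ofReal (1 / S * ∑ j ∈ J, ‖Ct y (x j) z‖ ^ p) =
          ENNReal.ofReal (1 / S) * ∑ j ∈ J, ‖Ct y (x j) z‖ₑ ^ p := by
        rw [ENNReal.ofReal_mul (by positivity), ENNReal.ofReal_sum_of_nonneg
          (fun j _ => Real.rpow_nonneg (norm_nonneg _) p)]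
        congr 1
        refine Finset.sum_congr rfl fun j _ => ?_
        rw [← ofReal_norm, ENNReal.ofReal_rpow_of_nonneg (norm_nonneg _) hp0.le]
      have e2 : 0 ≤ 1 / S * ∑ j ∈ J, ‖Ct y (x j) z‖ ^ p :=
        mul_nonneg (by positivity) (Finset.sum_nonneg fun j _ =>
          Real.rpow_nonneg (norm_nonneg _) p)
      have e3 : 0 ≤ ρ ^ n * S ^ (1 / p) := by positivity
      rw [← mul_assoc, ENNReal.ofReal_mul e3, ENNReal.ofReal_add zero_le_one e2, e1,
        ENNReal.ofReal_one]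
    · rw [indicator_of_notMem hz]
      have : ∑ j ∈ J, g j z * Ct y (x j) z = 0 := by
        refine Finset.sum_eq_zero fun j _ => ?_
        simp only [g, hGs j z hz, mul_zero, zero_mul]
      rw [this, enorm_zero]
  have hCm : ∀ j, Measurable fun z => ‖Ct y (x j) z‖ₑ ^ p := fun j =>
    (hC.meas y (x j)).enorm.pow_const p
  have h2 : ‖v‖ₑ ≤ ENNReal.ofReal (ρ ^ n * S ^ (1 / p)) * (volume (ball c ρ) + B) := by
    refine h1.trans ((lintegral_mono hpt).trans ?_)
    rw [lintegral_indicator measurableSet_ball, lintegral_const_mul' _ _ ENNReal.ofReal_ne_top,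
      lintegral_add_left measurable_const, lintegral_const, one_mul,
      Measure.restrict_apply_univ, lintegral_const_mul' _ _ ENNReal.ofReal_ne_top,
      lintegral_finsetSum _ fun j _ => hCm j]
    gcongr
    have h3 : ∀ j ∈ J, ∫⁻ z in ball c ρ, ‖Ct y (x j) z‖ₑ ^ p ≤ B * ENNReal.ofReal (‖x j‖ ^ p) := by
      intro j _
      have h4 := hB y (x j)
      rw [hy1, one_mul] at h4
      refine le_trans (lintegral_mono_set (ball_subset_ball' ?_)) h4
      rw [dist_zero_right]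
      linarith
    calc ENNReal.ofReal (1 / S) * ∑ j ∈ J, ∫⁻ z in ball c ρ, ‖Ct y (x j) z‖ₑ ^ p
        ≤ ENNReal.ofReal (1 / S) * ∑ j ∈ J, B * ENNReal.ofReal (‖x j‖ ^ p) := by
          gcongr with j hj
          exact h3 j hj
      _ = B * (ENNReal.ofReal (1 / S) * ENNReal.ofReal S) := by
          rw [← Finset.mul_sum, ← ENNReal.ofReal_sum_of_nonneg
            (fun j _ => Real.rpow_nonneg (norm_nonneg _) p)]
          ring
      _ = B := by
          rw [← ENNReal.ofReal_mul (by positivity), one_div_mul_cancel hSpos.ne',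
            ENNReal.ofReal_one, mul_one]
      _ ≤ B := le_rfl
  have hfin : ENNReal.ofReal (ρ ^ n * S ^ (1 / p)) * (volume (ball c ρ) + B) ≠ ⊤ := by
    refine ENNReal.mul_ne_top ENNReal.ofReal_ne_top (ENNReal.add_ne_top.2 ⟨?_, ENNReal.coe_ne_top⟩)
    exact measure_ball_lt_top.ne
  have h3 := ENNReal.toReal_mono hfin h2
  rw [toReal_enorm, ENNReal.toReal_mul, ENNReal.toReal_ofReal (by positivity),
    ENNReal.toReal_add measure_ball_lt_top.ne ENNReal.coe_ne_top, ENNReal.coe_toReal] at h3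
  calc ‖v‖ ≤ ρ ^ n * S ^ (1 / p) * ((volume (ball c ρ)).toReal + B) := h3
    _ = _ := by ring

end Pool.Agent.K1H97.BN
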